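import Mathlib
import Pool.Agent.Lib.MP_09338f_ag.KM.Goal3
import Pool.Agent.Lib.MP_09338f_ag.KM.Fin7

/-!
# MP_09338f_ag: the dimension of the families of good determinantal schemes

`W(b; a)` is the image in the Hilbert scheme of the open set `U` of the affine space of all
homogeneous `t × (t + c - 1)` matrices with entries of degrees `a_j - b_i` that define good
determinantal schemes.  The generic point of `U` is a generic matrix `A` over an extension `K` of
`k` (all coefficients algebraically independent over `k`, `Generic`), its image `η` is the generic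
point of the closure of `W(b; a)`, and the residue field of `η` is the smallest field `k ⊆ F ⊆ K`
over which the subscheme of projective space given by the ideal `P = minors A` of maximal minors is
defined.  `P` is saturated, so `F` is the smallest field over which the ideal `P` is defined, and
`dim W(b; a) = trdeg_k F`.  This is `DimW` (file `KM/Goal3.lean`).
-/

open Pool.Agent.Lib.MP_09338f_ag.Dim

universe u

namespace Pool.Agent.Results.MP_09338f_ag.DimensionFormula

/-- Let `k` be algebraically closed, `t ≥ 1`, `2 ≤ c ≤ n`, `a_0 ≤ … ≤ a_(t+c-2)`,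
`b_1 ≤ … ≤ b_t` with `W(b; a) ≠ ∅`.  Suppose (`hyp`) that, with `μ = min ([c/2] + 1, t)`,
`a_(i-μ) ≥ b_i` for `μ ≤ i ≤ t` if `n > c`, and `a_(i-μ) > b_i` if `n = c` (the hypothesis of the
question), or only that `a_(i-2) ≥ b_i` for `2 ≤ i ≤ t` if `n > c`, and `a_(i-2) > b_i`,
`a_0 > b_1` if `n = c`.  If the family is not (up to a shift of the degrees) `W(0,0; 1,…,1)` with
`n = c ≥ 3`, then `dim W(b; a) = λ_c + K_3 + … + K_c`. -/
theorem result (k : Type u) [Field k] [IsAlgClosed k] (n t c : ℕ) (a b : ℕ → ℤ)
    (ht : 1 ≤ t) (hc : 2 ≤ c) (hn : c ≤ n) (hs : SortedDeg t c a b) (hne : NonemptyW t a b)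
    (hyp : Gap n t c (min (c / 2 + 1) t) a b ∨ (Gap n t c 2 a b ∧ (n = c → b 1 < a 0)))
    (hex : ¬ (t = 2 ∧ n = c ∧ 3 ≤ c ∧ b 1 = b 2 ∧ ∀ j ≤ t + c - 2, a j = b 1 + 1)) :
    DimW k n t c a b (lam n t c a b + ∑ i ∈ Finset.range (c - 2), KNum n t a b i) :=
  Pool.Agent.Lib.MP_09338f_ag.fy_all k n t c a b ht hc hn hs hne hyp hex

end Pool.Agent.Results.MP_09338f_ag.DimensionFormula
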